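import Mathlib

/-!
# Polynomials are determinants of matrices with entries `0`, `1` and variables
-/

set_option autoImplicit false

namespace Pool.Agent.Q27.TW

open MvPolynomial Matrix

variable {N : ℕ}

/-- The polynomials `0` and `1` and the variables. -/
def IsEntry (e : MvPolynomial (Fin N) ℤ) : Prop := e = 0 ∨ e = 1 ∨ ∃ i, e = X i

/-- `f = u A⁻¹ v` with a matrix `A` of determinant `1`, all entries `0`, `1` or variables. -/
def Rep (f : MvPolynomial (Fin N) ℤ) : Prop :=
  ∃ (ι : Type) (_ : Fintype ι) (_ : DecidableEq ι) (A : Matrix ι ι (MvPolynomial (Fin N) ℤ))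
    (u v w : ι → MvPolynomial (Fin N) ℤ), (∀ i j, IsEntry (A i j)) ∧ (∀ i, IsEntry (u i)) ∧
      (∀ i, IsEntry (v i)) ∧ A.det = 1 ∧ A *ᵥ w = v ∧ u ⬝ᵥ w = f

lemma entry_zero : IsEntry (0 : MvPolynomial (Fin N) ℤ) := Or.inl rfl

lemma entry_one : IsEntry (1 : MvPolynomial (Fin N) ℤ) := Or.inr (Or.inl rfl)

lemma Rep.single {u v : MvPolynomial (Fin N) ℤ} (hu : IsEntry u) (hv : IsEntry v) :
    Rep (u * v) :=
  ⟨Unit, inferInstance, inferInstance, 1, fun _ => u, fun _ => v, fun _ => v, fun i j => by
    rw [Subsingleton.elim i j, Matrix.one_apply_eq]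
    exact entry_one, fun _ => hu, fun _ => hv, det_one, one_mulVec _, by
    simp [dotProduct]⟩

lemma Rep.add {f g : MvPolynomial (Fin N) ℤ} (hf : Rep f) (hg : Rep g) : Rep (f + g) := by
  obtain ⟨ι, i1, i2, A, u, v, w, a1, a2, a3, a4, a5, a6⟩ := hf
  obtain ⟨κ, j1, j2, B, x, y, z, b1, b2, b3, b4, b5, b6⟩ := hg
  refine ⟨ι ⊕ κ, inferInstance, inferInstance, fromBlocks A 0 0 B, Sum.elim u x, Sum.elim v y,
    Sum.elim w z, ?_, ?_, ?_, ?_, ?_, ?_⟩
  · rintro (i | i) (j | j)
    · exact a1 i j
    · exact entry_zero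
    · exact entry_zero
    · exact b1 i j
  · rintro (i | i)
    · exact a2 i
    · exact b2 i
  · rintro (i | i)
    · exact a3 i
    · exact b3 i
  · rw [det_fromBlocks_zero₂₁, a4, b4, one_mul]
  · rw [fromBlocks_mulVec, Sum.elim_comp_inl, Sum.elim_comp_inr, a5, b5, zero_mulVec, zero_mulVec,
      add_zero, zero_add]
  · rw [sumElim_dotProduct_sumElim, a6, b6]

lemma Rep.mul {f g : MvPolynomial (Fin N) ℤ} (hf : Rep f) (hg : Rep g) : Rep (f * g) := by
  obtain ⟨ι, i1, i2, A, u, v, w, a1, a2, a3, a4, a5, a6⟩ := hf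
  obtain ⟨κ, j1, j2, B, x, y, z, b1, b2, b3, b4, b5, b6⟩ := hg
  let V : Matrix ι (Unit ⊕ κ) (MvPolynomial (Fin N) ℤ) :=
    Matrix.of fun i => Sum.elim (fun _ => v i) fun _ => 0
  let U : Matrix Unit κ (MvPolynomial (Fin N) ℤ) := Matrix.of fun _ => x
  let D : Matrix (Unit ⊕ κ) (Unit ⊕ κ) (MvPolynomial (Fin N) ℤ) := fromBlocks 1 U 0 B
  refine ⟨ι ⊕ (Unit ⊕ κ), inferInstance, inferInstance, fromBlocks A V 0 D,
    Sum.elim u 0, Sum.elim 0 (Sum.elim 0 y), Sum.elim (g • w) (Sum.elim (fun _ => -g) z),
    ?_, ?_, ?_, ?_, ?_, ?_⟩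
  · rintro (i | i) (j | j)
    · exact a1 i j
    · rcases j with j | j
      · exact a3 i
      · exact entry_zero
    · exact entry_zero
    · rcases i with i | i <;> rcases j with j | j
      · change IsEntry ((1 : Matrix Unit Unit (MvPolynomial (Fin N) ℤ)) i j)
        rw [Subsingleton.elim i j, Matrix.one_apply_eq]
        exact entry_one
      · exact b2 j
      · exact entry_zero
      · exact b1 i j
  · rintro (i | i)
    · exact a2 i
    · exact entry_zero
  · rintro (i | i | i)
    · exact entry_zero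
    · exact entry_zero
    · exact b3 i
  · rw [det_fromBlocks_zero₂₁, det_fromBlocks_zero₂₁, a4, b4, det_one, one_mul, one_mul]
  · rw [fromBlocks_mulVec, Sum.elim_comp_inl, Sum.elim_comp_inr, zero_mulVec, zero_add]
    congr 1
    · rw [mulVec_smul, a5]
      funext i
      rw [Pi.add_apply, Pi.zero_apply, Pi.smul_apply, smul_eq_mul]
      have h1 : (V *ᵥ Sum.elim (fun _ => -g) z) i = v i * (-g) := by
        rw [mulVec, dotProduct, Fintype.sum_sum_type]
        simp [V]
      rw [h1]
      ring
    · rw [fromBlocks_mulVec, Sum.elim_comp_inl, Sum.elim_comp_inr, zero_mulVec, zero_add, b5,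
        one_mulVec]
      congr 1
      funext i
      have h1 : (U *ᵥ z) i = g := b6
      rw [Pi.add_apply, h1, neg_add_cancel]
      rfl
  · rw [sumElim_dotProduct_sumElim, dotProduct_smul, a6, zero_dotProduct, add_zero, smul_eq_mul,
      mul_comm]

lemma Rep.zero : Rep (0 : MvPolynomial (Fin N) ℤ) := by
  have h := Rep.single (N := N) entry_zero entry_zero
  rwa [zero_mul] at h

lemma Rep.one : Rep (1 : MvPolynomial (Fin N) ℤ) := by
  have h := Rep.single (N := N) entry_one entry_one
  rwa [one_mul] at h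

lemma Rep.neg_one : Rep (-1 : MvPolynomial (Fin N) ℤ) := by
  refine ⟨Fin 2, inferInstance, inferInstance, !![1, 1; 0, 1], ![1, 0], ![0, 1], ![-1, 1],
    ?_, ?_, ?_, ?_, ?_, ?_⟩
  · intro i j
    fin_cases i <;> fin_cases j
    · exact entry_one
    · exact entry_one
    · exact entry_zero
    · exact entry_one
  · intro i
    fin_cases i
    · exact entry_one
    · exact entry_zero
  · intro i
    fin_cases i
    · exact entry_zero
    · exact entry_one
  · simp [det_fin_two]
  · funext i
    fin_cases i <;> simp [mulVec, dotProduct, Fin.sum_univ_two]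
  · simp [dotProduct, Fin.sum_univ_two]

lemma Rep.var (i : Fin N) : Rep (X i : MvPolynomial (Fin N) ℤ) := by
  have h := Rep.single (N := N) entry_one (Or.inr (Or.inr ⟨i, rfl⟩) : IsEntry (X i))
  rwa [one_mul] at h

/-- All polynomials are representable. -/
theorem rep (f : MvPolynomial (Fin N) ℤ) : Rep f := by
  induction f using MvPolynomial.induction_on with
  | C a =>
    induction a using Int.induction_on with
    | zero =>
      rw [C_0]
      exact Rep.zero
    | succ a ih =>
      rw [C_add, C_1]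
      exact ih.add Rep.one
    | pred a ih =>
      have h : (C (-(a : ℤ) - 1) : MvPolynomial (Fin N) ℤ) = C (-(a : ℤ)) + -1 := by
        rw [sub_eq_add_neg, C_add]
        congr 1
        rw [C_neg, C_1]
      rw [h]
      exact ih.add Rep.neg_one
  | add p q hp hq => exact hp.add hq
  | mul_X p i hp => exact hp.mul (Rep.var i)

/-- **Every polynomial is the determinant of a matrix with entries `0`, `1` and variables.** -/
theorem exists_det (f : MvPolynomial (Fin N) ℤ) :
    ∃ (s : ℕ) (M : Matrix (Fin s) (Fin s) (MvPolynomial (Fin N) ℤ)),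
      (∀ i j, IsEntry (M i j)) ∧ M.det = f := by
  obtain ⟨ι, i1, i2, A, u, v, w, a1, a2, a3, a4, a5, a6⟩ := rep (-f)
  let V : Matrix ι Unit (MvPolynomial (Fin N) ℤ) := Matrix.of fun i _ => v i
  let U : Matrix Unit ι (MvPolynomial (Fin N) ℤ) := Matrix.of fun _ i => u i
  let W : Matrix ι Unit (MvPolynomial (Fin N) ℤ) := Matrix.of fun i _ => -w i
  let M : Matrix (ι ⊕ Unit) (ι ⊕ Unit) (MvPolynomial (Fin N) ℤ) := fromBlocks A V U 0
  have hM : M.det = f := by
    have h1 : M * fromBlocks 1 W 0 1 = fromBlocks A 0 U (Matrix.of fun _ _ => f) := by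
      rw [fromBlocks_multiply]
      congr 1
      · simp
      · refine Matrix.ext fun i j => ?_
        have h2 : (A *ᵥ w) i = v i := by rw [a5]
        have h3 : (A * W) i j = -(A *ᵥ w) i := by
          rw [Matrix.mul_apply, mulVec, dotProduct, ← Finset.sum_neg_distrib]
          apply Finset.sum_congr rfl
          intro k _
          change A i k * (-w k) = _
          ring
        rw [Matrix.add_apply, h3, h2, Matrix.mul_one]
        change -v i + v i = 0
        ring
      · simp
      · refine Matrix.ext fun i j => ?_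
        have h3 : (U * W) i j = -(u ⬝ᵥ w) := by
          rw [Matrix.mul_apply, dotProduct, ← Finset.sum_neg_distrib]
          apply Finset.sum_congr rfl
          intro k _
          change u k * (-w k) = _
          ring
        rw [Matrix.add_apply, h3, a6, Matrix.mul_one]
        change - -f + 0 = f
        ring
    have h2 := congrArg det h1
    have h4 : (Matrix.of fun _ _ => f : Matrix Unit Unit (MvPolynomial (Fin N) ℤ)).det = f := by
      rw [det_unique]
      rfl
    rw [det_mul, det_fromBlocks_zero₂₁, det_fromBlocks_zero₁₂, det_one, det_one, mul_one, mul_one,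
      a4, one_mul, h4] at h2
    exact h2
  refine ⟨Fintype.card (ι ⊕ Unit), M.submatrix (Fintype.equivFin _).symm (Fintype.equivFin _).symm,
    fun i j => ?_, ?_⟩
  · rw [submatrix_apply]
    rcases (Fintype.equivFin (ι ⊕ Unit)).symm i with k | k <;>
      rcases (Fintype.equivFin (ι ⊕ Unit)).symm j with l | l
    · exact a1 k l
    · exact a3 k
    · exact a2 l
    · exact entry_zero
  · rw [det_submatrix_equiv_self, hM]

end Pool.Agent.Q27.TW
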