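import Pool.Agent.Q27.TW.Two
import Pool.Agent.Q27.BG2.Flat

/-!
# Schemes with fibres of bounded dimension and closed subschemes of affine spaces

For properties which are closed under closed-open decompositions only.
-/

set_option autoImplicit false

namespace Pool.Agent.Q27.TW

open MvPolynomial CategoryTheory AlgebraicGeometry TensorProduct NumberField Topology
open Pool.Agent.Y116.UV Q54.CU Q54.ZE
open Pool.Agent.Z125.UN (exists_gens exists_emb)
open Pool.Agent.Q27.BG (topDim_int res res_ft res_triple res_aff coords_zero dim_generic)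
open Pool.Agent.Q27.BG2 (fibSet FibDim flat_fibDim)

/-- Restriction of the base. -/
theorem two_res {R S : Type} [CommRing R] [CommRing S] [Algebra R S] [Algebra.FiniteType R S]
    {sep : Prop} {P : Sch R → Prop} (hP : Two sep P)
    (hS : ∀ n : ℕ, P (aff R (MvPolynomial (Fin n) S))) :
    Two sep fun X : Sch S => P ((res R S).obj X) where
  iso hX e h := hP.iso (res_ft hX) (e.map fun e => (res R S).mapIso e) h
  total i j hX ht hZ hU := hP.total _ _ (res_ft hX) (res_triple ht) hZ hU
  opened i j hX ht hZ hX' := hP.opened _ _ (res_ft hX) (res_triple ht) hZ hX'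
  closed i j hX ht hX' hU := hP.closed _ _ (res_ft hX) (res_triple ht) hX' hU
  space n := by
    rw [res_aff]
    exact hS n

/-- Properties of schemes over `ℤ`, true for the affine spaces over the prime fields as well. -/
structure TwoZ (sep : Prop) (P : Sch ℤ → Prop) : Prop extends Two sep P where
  spaceP : ∀ (p : ℕ) [Fact p.Prime] (n : ℕ), P (aff ℤ (MvPolynomial (Fin n) (ZMod p)))

variable {sep : Prop} {P : Sch ℤ → Prop}

section

variable (hP : Two sep P)

include hP

/-- localization at `1` -/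
lemma t_q_away_one (B : Type) [CommRing B] [Algebra ℤ B] [Algebra.FiniteType ℤ B]
    (h : P (aff ℤ B)) : P (aff ℤ (Localization.Away (1 : B))) := by
  have e := IsLocalization.atUnits B (Submonoid.powers (1 : B)) (S := Localization.Away (1 : B))
    (by rintro _ ⟨n, rfl⟩; simp)
  exact t_iso_alg hP (e.restrictScalars ℤ) h
/-- isomorphic rings -/
lemma t_q_ringEquiv {B C : Type} [CommRing B] [Algebra ℤ B] [Algebra.FiniteType ℤ B] [CommRing C]
    [Algebra ℤ C] (e : B ≃+* C) (h : P (aff ℤ B)) : P (aff ℤ C) :=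
  t_iso_alg hP (AlgEquiv.ofRingEquiv (f := e) (by
    intro r
    rw [eq_intCast, eq_intCast, map_intCast])) h
/-- Open parts of domains of characteristic zero. -/
lemma t_domain_zero_sep {n : ℕ} (h : ∀ I : Ideal (MvPolynomial (Fin (n + 1)) ℤ),
    P (aff ℤ (MvPolynomial (Fin (n + 1)) ℤ ⧸ I))) (B : Type) [CommRing B] [IsDomain B] [CharZero B]
    [Algebra.FiniteType ℤ B] (hd : ringKrullDim (B ⊗[ℤ] ℚ) ≤ n) :
    ∃ w : B, w ≠ 0 ∧ P (aff ℤ (Localization.Away w)) := by
  obtain ⟨x, hx⟩ := coords_zero B hd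
  obtain ⟨w, hw, φ, g, h1, h2⟩ := exists_emb' x (R := ℤ) (B := B) (fun y => by
    obtain ⟨P, Q, h3, h4⟩ := hx y
    refine ⟨P, Q, ?_, ?_⟩
    · rwa [aeval_int_eq _ (Ring.toIntAlgebra _)] at h3 ⊢
    · rwa [aeval_int_eq _ (Ring.toIntAlgebra _), aeval_int_eq _ (Ring.toIntAlgebra _) x P] at h4 ⊢)
  exact ⟨w, hw, t_p_emb hP h φ g h1 h2⟩
/-- Open parts of domains. -/
lemma t_domain_step_sep {n : ℕ} (h : ∀ I : Ideal (MvPolynomial (Fin (n + 1)) ℤ),
    P (aff ℤ (MvPolynomial (Fin (n + 1)) ℤ ⧸ I))) (B : Type) [CommRing B] [IsDomain B]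
    [Algebra.FiniteType ℤ B] (hd : ∀ (K : Type) [Field K], ringKrullDim (B ⊗[ℤ] K) ≤ n) :
    ∃ w : B, w ≠ 0 ∧ P (aff ℤ (Localization.Away w)) := by
  obtain ⟨x, hx⟩ := exists_coords B hd
  obtain ⟨w, hw, φ, g, h1, h2⟩ := exists_emb' x (R := ℤ) (B := B) (fun y => by
    obtain ⟨P, Q, h3, h4⟩ := hx y
    refine ⟨P, Q, ?_, ?_⟩
    · rwa [aeval_int_eq _ (Ring.toIntAlgebra _)] at h3 ⊢
    · rwa [aeval_int_eq _ (Ring.toIntAlgebra _), aeval_int_eq _ (Ring.toIntAlgebra _) x P] at h4 ⊢)
  exact ⟨w, hw, t_p_emb hP h φ g h1 h2⟩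
/-- from closed subschemes of the affine space of dimension `n + 1` to schemes with fibres of
dimension at most `n` -/
lemma t_closed_to_fib_sep {n : ℕ} (h : ∀ I : Ideal (MvPolynomial (Fin (n + 1)) ℤ),
    P (aff ℤ (MvPolynomial (Fin (n + 1)) ℤ ⧸ I))) (A : Type) [CommRing A] [inst : Algebra ℤ A]
    [Algebra.FiniteType ℤ A]
    (hA : FibLE n (Spec.map (CommRingCat.ofHom (algebraMap ℤ A)))) : P (aff ℤ A) := by
  obtain rfl : inst = Ring.toIntAlgebra A := Subsingleton.elim _ _
  rw [fib_affine] at hA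
  refine t_noeth hP (fun B _ _ hB => t_p_empty hP B hB) fun p hp => ?_
  have hBft : @Algebra.FiniteType ℤ (A ⧸ p) _ _ (Ring.toIntAlgebra (A ⧸ p)) :=
    Algebra.FiniteType.of_surjective (Ideal.Quotient.mk p).toIntAlgHom Ideal.Quotient.mk_surjective
  obtain ⟨w, hw, h1⟩ := t_domain_step_sep hP h (A ⧸ p) fun K _ =>
    (dim_surj (Ideal.Quotient.mk p) Ideal.Quotient.mk_surjective K).trans (hA K)
  exact ⟨w, hw, p_inst (P := P) _ _ h1⟩
/-- From affine schemes to all schemes with fibres of dimension at most `n`. -/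
lemma t_fib_of_affine_sep {n : ℕ} (h : ∀ (A : Type) [CommRing A] [Algebra ℤ A] [Algebra.FiniteType ℤ A],
      FibLE n (Spec.map (CommRingCat.ofHom (algebraMap ℤ A))) → P (aff ℤ A)) (X : Sch ℤ)
    (hX : FT sep X) (hn : FibLE n (X := X.left) X.hom) : P X := by
  refine of_affine' (P := fun X => FibLE n (X := X.left) X.hom → P X) (sep := sep) ?_ ?_ ?_ X
    hX hn
  · intro X Y hX e hPX hY
    refine hP.iso hX e (hPX ?_)
    obtain ⟨e⟩ := e
    have h1 : X.hom = e.hom.left ≫ Y.hom := (Over.w e.hom).symm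
    rw [h1]
    have : IsIso e.hom.left := inferInstanceAs (IsIso ((Over.forget _).map e.hom))
    exact FibLE.comp_open hY e.hom.left
  · intro Z X U i j hX ht hZ hU hn
    refine hP.total i j hX ht (hZ ?_) (hU ?_)
    · have h1 : Z.hom = i.left ≫ X.hom := (Over.w i).symm
      rw [h1]
      have := ht.closed
      exact FibLE.comp_closed hn i.left
    · have h1 : U.hom = j.left ≫ X.hom := (Over.w j).symm
      rw [h1]
      have := ht.opened
      exact FibLE.comp_open hn j.left
  · intro A _ _ _ hA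
    exact h A hA
end

section

variable (hP : TwoZ sep P)

include hP

/-- The polynomial ring over a prime field. -/
lemma t_q_poly_prime {n : ℕ} (p : ℕ) [Fact p.Prime] {B : Type} [CommRing B]
    [Algebra ℤ B] (φ : MvPolynomial (Fin (n + 1)) ℤ →+* B) (hφ : Function.Surjective φ)
    (hp : (p : B) = 0) (hker : ∀ f, φ f = 0 → ∀ d, (p : ℤ) ∣ f.coeff d) : P (aff ℤ B) := by
  have : Algebra.FiniteType ℤ (ZMod p) :=
    Algebra.FiniteType.of_surjective (Algebra.ofId ℤ (ZMod p)) (ZMod.intCast_surjective)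
  have h1 : P (aff ℤ (MvPolynomial (Fin (n + 1)) (ZMod p))) := hP.spaceP p _
  let θ : MvPolynomial (Fin (n + 1)) ℤ →+* MvPolynomial (Fin (n + 1)) (ZMod p) :=
    map (Int.castRingHom (ZMod p))
  have hθ : Function.Surjective θ := map_surjective _ ZMod.intCast_surjective
  have hk : RingHom.ker θ = RingHom.ker φ := by
    ext f
    rw [RingHom.mem_ker, RingHom.mem_ker]
    constructor
    · intro hf
      have h2 : ∀ d, (p : ℤ) ∣ f.coeff d := by
        intro d
        have h3 := congrArg (MvPolynomial.coeff d) hf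
        rw [coeff_map, coeff_zero] at h3
        exact (ZMod.intCast_zmod_eq_zero_iff_dvd _ _).1 h3
      obtain ⟨g, rfl⟩ := (C_dvd_iff_dvd_coeff (p : ℤ) f).2 h2
      rw [map_mul]
      have h4 : φ (MvPolynomial.C (p : ℤ)) = 0 := by
        rw [show (MvPolynomial.C (p : ℤ) : MvPolynomial (Fin (n + 1)) ℤ) = (p : MvPolynomial _ ℤ) by
          simp, map_natCast, hp]
      rw [h4, zero_mul]
    · intro hf
      ext d
      rw [coeff_map, coeff_zero]
      exact (ZMod.intCast_zmod_eq_zero_iff_dvd _ _).2 (hker f hf d)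
  have : Algebra.FiniteType ℤ (MvPolynomial (Fin (n + 1)) (ZMod p)) :=
    Algebra.FiniteType.trans (S := ZMod p) inferInstance inferInstance
  exact t_q_ringEquiv hP.toTwo (((RingHom.quotientKerEquivOfSurjective hθ).symm.trans
    (Ideal.quotEquivOfEq hk)).trans (RingHom.quotientKerEquivOfSurjective hφ)) h1
/-- from schemes with fibres of dimension at most `n` to closed subschemes of the affine space of
dimension `n + 1` -/
lemma t_fib_to_closed_sep {n : ℕ}
    (h : ∀ X : Sch ℤ, FT sep X → FibLE n (X := X.left) X.hom → P X)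
    (I : Ideal (MvPolynomial (Fin (n + 1)) ℤ)) :
    P (aff ℤ (MvPolynomial (Fin (n + 1)) ℤ ⧸ I)) := by
  -- rings
  have hR : ∀ (C : Type) [CommRing C] [Algebra.FiniteType ℤ C],
      (∀ (K : Type) [Field K], ringKrullDim (C ⊗[ℤ] K) ≤ n) →
      ∀ inst : Algebra ℤ C, P (@aff ℤ C _ _ inst) := by
    intro C _ _ hC inst
    obtain rfl : inst = Ring.toIntAlgebra C := Subsingleton.elim _ _
    exact h _ (ft_aff sep) ((fib_affine C).2 hC)
  have hfin : ∀ (C : Type) [CommRing C] (inst : Algebra ℤ C),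
      @Algebra.FiniteType ℤ C _ _ inst → @Algebra.FiniteType ℤ C _ _ (Ring.toIntAlgebra C) := by
    intro C _ inst hC
    rwa [Subsingleton.elim (Ring.toIntAlgebra C) inst]
  refine t_noeth hP.toTwo (fun B _ _ hB => t_p_empty hP.toTwo B hB) fun p hp => ?_
  let A := MvPolynomial (Fin (n + 1)) ℤ ⧸ I
  let B := A ⧸ p
  let φ : MvPolynomial (Fin (n + 1)) ℤ →+* B := (Ideal.Quotient.mk p).comp (Ideal.Quotient.mk I)
  have hφ : Function.Surjective φ :=
    Ideal.Quotient.mk_surjective.comp Ideal.Quotient.mk_surjective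
  have hBft : @Algebra.FiniteType ℤ B _ _ (Ring.toIntAlgebra B) := hfin B _ inferInstance
  by_cases hker : ∃ f, φ f = 0 ∧ f ≠ 0
  · obtain ⟨f, hf, hf0⟩ := hker
    obtain ⟨d, hd⟩ := MvPolynomial.ne_zero_iff.1 hf0
    by_cases hm : ((f.coeff d : ℤ) : B) = 0
    · obtain ⟨q, hq⟩ := CharP.exists B
      have hq0 : q ≠ 0 := by
        rintro rfl
        have : CharZero B := CharP.charP_to_charZero B
        exact hd (Int.cast_eq_zero.1 hm)
      have hqp : Fact q.Prime := ⟨(CharP.char_is_prime_or_zero B q).resolve_right hq0⟩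
      refine ⟨1, one_ne_zero, t_q_away_one hP.toTwo B ?_⟩
      by_cases hall : ∀ f, φ f = 0 → ∀ d, (q : ℤ) ∣ f.coeff d
      · exact t_q_poly_prime hP q φ hφ (CharP.cast_eq_zero B q) hall
      · push Not at hall
        obtain ⟨g, hg, d, hgd⟩ := hall
        have hcop : IsCoprime (g.coeff d) (q : ℤ) :=
          ((Nat.prime_iff_prime_int.1 hqp.1).irreducible.coprime_iff_not_dvd.2 hgd).symm
        obtain ⟨u, v, huv⟩ := hcop
        refine hR B (fun K _ => dim_fib φ 1 (by simp) (fun c => ?_)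
          (MvPolynomial.C u * g + MvPolynomial.C v * monomial d (q : ℤ)) ?_ d ?_ K) _
        · obtain ⟨a, rfl⟩ := hφ c
          exact ⟨0, a, by simp⟩
        · have h4 : φ (monomial d (q : ℤ)) = 0 := by
            have h5 : (monomial d (q : ℤ) : MvPolynomial (Fin (n + 1)) ℤ) =
                (q : MvPolynomial (Fin (n + 1)) ℤ) * monomial d 1 := by
              rw [← nsmul_eq_mul, ← map_nsmul]
              simp
            rw [h5, map_mul, map_natCast, CharP.cast_eq_zero, zero_mul]
          rw [map_add, map_mul, map_mul, hg, h4, mul_zero, mul_zero, add_zero]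
        · rw [coeff_add, coeff_C_mul, coeff_C_mul, coeff_monomial, if_pos rfl]
          exact huv
    · refine ⟨((f.coeff d : ℤ) : B), hm, ?_⟩
      let L := Localization.Away (((f.coeff d : ℤ) : B))
      have hu : IsUnit (algebraMap B L ((f.coeff d : ℤ) : B)) :=
        IsLocalization.Away.algebraMap_isUnit _
      rw [map_intCast] at hu
      have hLft : @Algebra.FiniteType ℤ L _ _ (Ring.toIntAlgebra L) :=
        hfin L _ (Algebra.FiniteType.trans (S := B) inferInstance inferInstance)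
      refine hR L (fun K _ => dim_fib ((algebraMap B L).comp φ) (f.coeff d) hu (fun c => ?_) f
        (by rw [RingHom.comp_apply, hf, map_zero]) d rfl K) _
      obtain ⟨⟨b, ⟨_, j, rfl⟩⟩, hb⟩ := IsLocalization.surj
        (Submonoid.powers (((f.coeff d : ℤ) : B))) c
      obtain ⟨a, rfl⟩ := hφ b
      refine ⟨j, a, ?_⟩
      rw [RingHom.comp_apply, ← hb, mul_comm]
      congr 1
      change ((f.coeff d : ℤ) : L) ^ j = algebraMap B L (((f.coeff d : ℤ) : B) ^ j)
      rw [map_pow, map_intCast]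
  · push Not at hker
    refine ⟨1, one_ne_zero, t_q_away_one hP.toTwo B ?_⟩
    have hinj : Function.Injective φ := by
      rw [injective_iff_map_eq_zero]
      exact hker
    have : Algebra.FiniteType ℤ (MvPolynomial (Fin (n + 1)) ℤ) := inferInstance
    exact t_q_ringEquiv hP.toTwo (RingEquiv.ofBijective φ ⟨hinj, hφ⟩) (hP.space (n + 1))
/-- Domains over a prime field. -/
lemma t_char_p {d : ℕ} (hI : ∀ I : Ideal (MvPolynomial (Fin (d + 1)) ℤ),
      P (aff ℤ (MvPolynomial (Fin (d + 1)) ℤ ⧸ I))) (p : ℕ) [Fact p.Prime] (B : Type) [CommRing B]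
    [inst : Algebra ℤ B] [Algebra.FiniteType ℤ B] [Algebra (ZMod p) B]
    (hB : ringKrullDim B ≤ d) : P (aff ℤ B) := by
  obtain rfl : inst = Ring.toIntAlgebra B := Subsingleton.elim _ _
  have hft : Algebra.FiniteType ℤ (ZMod p) :=
    Algebra.FiniteType.of_surjective (Algebra.ofId ℤ (ZMod p)) (ZMod.intCast_surjective)
  have hQ := two_res (S := ZMod p) hP.toTwo (hP.spaceP p)
  have hs : IsScalarTower ℤ (ZMod p) B := IsScalarTower.of_algebraMap_eq' (RingHom.ext_int _ _)
  have h1 : Algebra.FiniteType (ZMod p) B :=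
    Algebra.FiniteType.of_restrictScalars_finiteType ℤ (ZMod p) B
  have h3 : ∀ I : Ideal (MvPolynomial (Fin (d + 1)) (ZMod p)),
      P ((res ℤ (ZMod p)).obj (aff (ZMod p) (MvPolynomial (Fin (d + 1)) (ZMod p) ⧸ I))) := by
    intro I
    rw [res_aff ℤ (ZMod p)]
    let θ : MvPolynomial (Fin (d + 1)) ℤ →+* MvPolynomial (Fin (d + 1)) (ZMod p) ⧸ I :=
      (Ideal.Quotient.mk I).comp (map (Int.castRingHom (ZMod p)))
    have hθ : Function.Surjective θ := Ideal.Quotient.mk_surjective.comp
      (map_surjective _ ZMod.intCast_surjective)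
    exact t_of_surj hP.toTwo hI (AlgHom.mk θ (fun n => by
      rw [eq_intCast, eq_intCast]
      exact map_intCast θ n)) hθ
  have h4 := t_closed_to_dim hQ h3 B hB
  rwa [res_aff ℤ (ZMod p)] at h4

/-- Affine schemes of dimension at most `d + 1` with fibres of dimension at most `d`. -/
lemma t_fibDim_affine {d : ℕ} (hI : ∀ I : Ideal (MvPolynomial (Fin (d + 1)) ℤ),
      P (aff ℤ (MvPolynomial (Fin (d + 1)) ℤ ⧸ I))) (A : Type) [CommRing A]
    [inst : Algebra ℤ A] [Algebra.FiniteType ℤ A] (hA : FibDim d (aff ℤ A)) : P (aff ℤ A) := by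
  obtain rfl : inst = Ring.toIntAlgebra A := Subsingleton.elim _ _
  refine t_noeth hP.toTwo (fun B _ _ hB => t_p_empty hP.toTwo B hB) fun p hp => ?_
  have hBft : @Algebra.FiniteType ℤ (A ⧸ p) _ _ (Ring.toIntAlgebra (A ⧸ p)) :=
    Algebra.FiniteType.of_surjective (Ideal.Quotient.mk p).toIntAlgHom Ideal.Quotient.mk_surjective
  have hBd : ringKrullDim (A ⧸ p) ≤ (d + 1 : ℕ) := by
    refine (ringKrullDim_quotient_le p).trans ?_
    rw [← topDim_int]
    exact hA.total
  obtain ⟨q, hq⟩ := CharP.exists (A ⧸ p)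
  rcases CharP.char_is_prime_or_zero (A ⧸ p) q with h0 | rfl
  · have : Fact q.Prime := ⟨h0⟩
    let _ : Algebra (ZMod q) (A ⧸ p) := ZMod.algebra _ q
    let i : aff ℤ (A ⧸ p) ⟶ aff ℤ A := affMap (Ideal.Quotient.mkₐ ℤ p)
    have hi : IsClosedImmersion i.left := closed_affMap _ (Ideal.Quotient.mkₐ_surjective ℤ p)
    have h1 := hA.of_inducing i i.left.isClosedEmbedding.isInducing
    have h2 : fibSet (aff ℤ (A ⧸ p)) q = Set.univ := by
      rw [Set.eq_univ_iff_forall]
      intro x
      let y : PrimeSpectrum (A ⧸ p) := x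
      change (q : ℤ) ∈ y.asIdeal.comap (algebraMap ℤ (A ⧸ p))
      rw [Ideal.mem_comap, eq_intCast, Int.cast_natCast, CharP.cast_eq_zero]
      exact Ideal.zero_mem _
    have h3 : ringKrullDim (A ⧸ p) ≤ d := by
      rw [← topDim_int]
      have h4 := h1.fibre q h0
      rw [h2] at h4
      have h5 := (Homeomorph.Set.univ (aff ℤ (A ⧸ p)).left).symm.isInducing.topologicalKrullDim_le
      exact h5.trans h4
    have h6 := t_char_p hP hI q (A ⧸ p) h3
    exact ⟨1, one_ne_zero, t_q_away_one hP.toTwo (A ⧸ p) (p_inst _ _ h6)⟩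
  · have : CharZero (A ⧸ p) := CharP.charP_to_charZero _
    obtain ⟨w, hw, h3⟩ := t_domain_zero_sep hP.toTwo hI (A ⧸ p) (dim_generic (A ⧸ p) (by
      refine hBd.trans (le_of_eq ?_)
      push_cast
      rfl))
    exact ⟨w, hw, p_inst _ _ h3⟩

/-- Schemes of dimension at most `d + 1` with fibres of dimension at most `d`. -/
theorem t_fibDim_all {d : ℕ} (hI : ∀ I : Ideal (MvPolynomial (Fin (d + 1)) ℤ),
      P (aff ℤ (MvPolynomial (Fin (d + 1)) ℤ ⧸ I))) (X : Sch ℤ) (hX : FT sep X)
    (h : FibDim d X) : P X := by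
  refine of_affine' (P := fun X => FibDim d X → P X) (sep := sep) ?_ ?_ ?_ X hX h
  · intro X Y hX e hPX hY
    refine hP.iso hX e (hPX ?_)
    obtain ⟨e⟩ := e
    have : IsIso e.hom.left := inferInstanceAs (IsIso ((Over.forget _).map e.hom))
    exact hY.of_inducing e.hom e.hom.left.isOpenEmbedding.isInducing
  · intro Z X U i j hX ht hZ hU hn
    refine hP.total i j hX ht (hZ ?_) (hU ?_)
    · exact hn.of_inducing i (have := ht.closed; i.left.isClosedEmbedding.isInducing)
    · exact hn.of_inducing j (have := ht.opened; j.left.isOpenEmbedding.isInducing)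
  · intro A _ _ _ hA
    exact t_fibDim_affine hP hI A hA
end

end Pool.Agent.Q27.TW
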