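import Pool.Agent.Q27.TW.Two
import Pool.Agent.Q27.TW.Det

/-!
# From principal open subschemes of the affine space to its closed subschemes
-/

set_option autoImplicit false

namespace Pool.Agent.Q27.TW

open CategoryTheory AlgebraicGeometry MvPolynomial Pool.Agent.Y116.UV

variable {R : Type} [CommRing R] {sep : Prop} {P : Sch R → Prop} (hP : Two sep P)

include hP

section

variable {A : Type} [CommRing A] [Algebra R A] [Algebra.FiniteType R A]

lemma t_ring_closed (w : A) (h1 : P (aff R A)) (h2 : P (aff R (Localization.Away w))) :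
    P (aff R (A ⧸ Ideal.span {w})) :=
  hP.closed _ _ (ft_aff sep) (triple_away w) h1 h2

/-- The localizations at `g` of `A / J` and `A / I` are equal if `g I ⊆ J ⊆ I`. -/
lemma t_loc {I J : Ideal A} (g : A) (hJ : J ≤ I) (hI : ∀ x ∈ I, g * x ∈ J)
    (h : P (aff R (Localization.Away (Ideal.Quotient.mk J g)))) :
    P (aff R (Localization.Away (Ideal.Quotient.mk I g))) := by
  let B := A ⧸ J
  let C := A ⧸ I
  let S := Localization.Away (Ideal.Quotient.mk I g)
  let φ : B →ₐ[R] C := Ideal.Quotient.factorₐ R hJ
  let _ : Algebra B S := ((algebraMap C S).comp φ.toRingHom).toAlgebra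
  have hmk : ∀ x : A, algebraMap B S (Ideal.Quotient.mk J x) =
      algebraMap C S (Ideal.Quotient.mk I x) := fun x => rfl
  have hloc : IsLocalization.Away (Ideal.Quotient.mk J g) S := by
    have hu : IsUnit (algebraMap C S (Ideal.Quotient.mk I g)) :=
      IsLocalization.Away.algebraMap_isUnit (S := S) (Ideal.Quotient.mk I g)
    refine ⟨?_, ?_, ?_⟩
    · rintro ⟨_, n, rfl⟩
      change IsUnit (algebraMap B S ((Ideal.Quotient.mk J g) ^ n))
      rw [map_pow, hmk]
      exact hu.pow n
    · intro z
      obtain ⟨⟨y, ⟨_, n, rfl⟩⟩, hy⟩ := IsLocalization.surj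
        (Submonoid.powers (Ideal.Quotient.mk I g)) z
      obtain ⟨y, rfl⟩ := Ideal.Quotient.mk_surjective y
      refine ⟨(Ideal.Quotient.mk J y, ⟨(Ideal.Quotient.mk J g) ^ n, n, rfl⟩), ?_⟩
      change z * algebraMap B S ((Ideal.Quotient.mk J g) ^ n) = algebraMap B S _
      rw [map_pow, hmk, hmk, ← map_pow]
      exact hy
    · intro x y hxy
      obtain ⟨x, rfl⟩ := Ideal.Quotient.mk_surjective x
      obtain ⟨y, rfl⟩ := Ideal.Quotient.mk_surjective y
      rw [hmk, hmk] at hxy
      obtain ⟨⟨_, n, rfl⟩, hc⟩ := (IsLocalization.eq_iff_exists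
        (Submonoid.powers (Ideal.Quotient.mk I g)) S).mp hxy
      have h6 : g ^ n * x - g ^ n * y ∈ I := by
        rw [← Ideal.Quotient.eq_zero_iff_mem, map_sub, map_mul, map_mul, map_pow]
        exact sub_eq_zero.mpr hc
      refine ⟨⟨(Ideal.Quotient.mk J g) ^ (n + 1), n + 1, rfl⟩, ?_⟩
      change (Ideal.Quotient.mk J g) ^ (n + 1) * Ideal.Quotient.mk J x =
        (Ideal.Quotient.mk J g) ^ (n + 1) * Ideal.Quotient.mk J y
      rw [← map_pow, ← map_mul, ← map_mul, ← sub_eq_zero, ← map_sub,
        Ideal.Quotient.eq_zero_iff_mem]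
      have h7 : g ^ (n + 1) * x - g ^ (n + 1) * y = g * (g ^ n * x - g ^ n * y) := by ring
      rw [h7]
      exact hI _ h6
  let e : Localization.Away (Ideal.Quotient.mk J g) ≃ₐ[B] S :=
    IsLocalization.algEquiv (Submonoid.powers (Ideal.Quotient.mk J g)) _ S
  let e2 : Localization.Away (Ideal.Quotient.mk J g) ≃ₐ[R] S :=
    AlgEquiv.ofRingEquiv (f := e.toRingEquiv) (by
      intro r
      change e (algebraMap R (Localization.Away (Ideal.Quotient.mk J g)) r) = _
      rw [IsScalarTower.algebraMap_apply R B (Localization.Away (Ideal.Quotient.mk J g)),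
        e.commutes, IsScalarTower.algebraMap_apply R C S]
      change algebraMap C S (φ (algebraMap R B r)) = _
      rw [φ.commutes])
  have : Algebra.FiniteType R (Localization.Away (Ideal.Quotient.mk J g)) :=
    Algebra.FiniteType.trans (S := B) inferInstance inferInstance
  exact t_iso_alg hP e2 h

/-- From hypersurfaces to closed subschemes. -/
lemma t_of_hyper (hA : P (aff R A)) (h : ∀ f : A, P (aff R (A ⧸ Ideal.span {f}))) (m : ℕ)
    (f : Fin m → A) : P (aff R (A ⧸ Ideal.span (Set.range f))) := by
  induction m with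
  | zero =>
    have h1 : Ideal.span (Set.range f) = ⊥ := by
      rw [Set.range_eq_empty, Ideal.span_empty]
    rw [h1]
    exact t_iso_alg hP (AlgEquiv.quotientBot R A).symm hA
  | succ m ih =>
    let g := f 0
    let f' : Fin m → A := fun i => f i.succ
    let I := Ideal.span (Set.range f')
    let J := Ideal.span (Set.range fun i => g * f' i)
    have hIJ : J ≤ I := by
      rw [Ideal.span_le]
      rintro _ ⟨i, rfl⟩
      exact I.mul_mem_left _ (Ideal.subset_span ⟨i, rfl⟩)
    have hJg : J ≤ Ideal.span {g} := by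
      rw [Ideal.span_le]
      rintro _ ⟨i, rfl⟩
      exact Ideal.mul_mem_right _ _ (Ideal.mem_span_singleton_self g)
    have hgI : ∀ x ∈ I, g * x ∈ J := by
      intro x hx
      induction hx using Submodule.span_induction with
      | mem x hx =>
        obtain ⟨i, rfl⟩ := hx
        exact Ideal.subset_span ⟨i, rfl⟩
      | zero =>
        rw [mul_zero]
        exact J.zero_mem
      | add x y _ _ hx hy =>
        rw [mul_add]
        exact J.add_mem hx hy
      | smul a x _ hx =>
        rw [smul_eq_mul, mul_left_comm]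
        exact J.mul_mem_left _ hx
    have h1 : P (aff R (A ⧸ J)) := ih _
    have h2 : P (aff R ((A ⧸ J) ⧸ Ideal.span {Ideal.Quotient.mk J g})) := by
      refine t_quot_mk hP J g ?_
      rw [sup_eq_right.2 hJg]
      exact h g
    have h3 := t_loc hP g hIJ hgI (t_ring_open hP _ h2 h1)
    have h4 : P (aff R ((A ⧸ I) ⧸ Ideal.span {Ideal.Quotient.mk I g})) :=
      t_ring_closed hP _ (ih f') h3
    have h5 : Ideal.map (Ideal.Quotient.mkₐ R I) (Ideal.span {g}) =
        Ideal.span {Ideal.Quotient.mk I g} := by
      rw [Ideal.map_span, Set.image_singleton]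
      rfl
    rw [← h5] at h4
    have h6 := t_iso_alg hP (DoubleQuot.quotQuotEquivQuotSupₐ R I (Ideal.span {g})) h4
    have h7 : I ⊔ Ideal.span {g} = Ideal.span (Set.range f) := by
      rw [← Ideal.span_union]
      congr 1
      ext x
      constructor
      · rintro (⟨i, rfl⟩ | rfl)
        · exact ⟨i.succ, rfl⟩
        · exact ⟨0, rfl⟩
      · rintro ⟨i, rfl⟩
        induction i using Fin.cases with
        | zero => exact Or.inr rfl
        | succ i => exact Or.inl ⟨i, rfl⟩
    rwa [h7] at h6

end

/-- From principal open subschemes of the affine space to its closed subschemes. -/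
theorem t_closed_of_open [IsNoetherianRing R] {N : ℕ}
    (h : ∀ f : MvPolynomial (Fin N) R, P (aff R (Localization.Away f)))
    (I : Ideal (MvPolynomial (Fin N) R)) : P (aff R (MvPolynomial (Fin N) R ⧸ I)) := by
  have hN : IsNoetherianRing (MvPolynomial (Fin N) R) := inferInstance
  obtain ⟨G, hG⟩ := (isNoetherianRing_iff_ideal_fg _).mp hN I
  have h1 := t_of_hyper hP (hP.space N) (fun f => t_ring_closed hP f (hP.space N) (h f)) G.card
    (fun i => (G.equivFin.symm i : MvPolynomial (Fin N) R))
  have h2 : Set.range (fun i => (G.equivFin.symm i : MvPolynomial (Fin N) R)) = G := by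
    ext x
    constructor
    · rintro ⟨i, rfl⟩
      exact (G.equivFin.symm i).2
    · intro hx
      exact ⟨G.equivFin ⟨x, hx⟩, congrArg Subtype.val (Equiv.symm_apply_apply _ _)⟩
  rw [h2] at h1
  have h3 : Ideal.span (G : Set (MvPolynomial (Fin N) R)) = I := hG
  rwa [h3] at h1

/-- From closed subschemes of the affine space to its principal open subschemes. -/
theorem t_open_of_closed {N : ℕ}
    (h : ∀ I : Ideal (MvPolynomial (Fin N) R), P (aff R (MvPolynomial (Fin N) R ⧸ I)))
    (f : MvPolynomial (Fin N) R) : P (aff R (Localization.Away f)) :=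
  t_ring_open hP f (h _) (hP.space N)

end Pool.Agent.Q27.TW
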