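import Pool.Agent.Q27.TW.Fib
import Pool.Agent.Q27.TW.Hyp

/-!
# Schemes with fibres of dimension at most `d` and linear sections of `GL_s` of dimension `d + 1`
-/

set_option autoImplicit false

namespace Pool.Agent.Q27.TW

open MvPolynomial CategoryTheory AlgebraicGeometry TensorProduct
open Pool.Agent.Y116.UV Q54.CU Q54.ZE Pool.Agent.H920R2
open Pool.Agent.Z125.UN (exists_smooth)
open Pool.Agent.Q27.BG (exists_smooth_int fib_away)
open Pool.Agent.Q27.BG2 (flat_fibDim)

/-- `P` is true for the open subschemes `det M ≠ 0` of the affine space of dimension `N` over `ℤ`, for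
all square matrices `M` whose entries are `0`, `1` or one of the `N` variables. -/
def Sections (P : Sch ℤ → Prop) (N : ℕ) : Prop :=
  ∀ (s : ℕ) (M : Matrix (Fin s) (Fin s) (MvPolynomial (Fin N) ℤ)), (∀ i j, IsEntry (M i j)) →
    P (aff ℤ (Localization.Away M.det))

/-- `P` is true for the domains which are smooth over `ℤ` or over the field with `p` elements, with
fibres of dimension at most `d` over `ℤ`. -/
def SmoothDom (P : Sch ℤ → Prop) (d : ℕ) : Prop :=
  ∀ (A : Type) [CommRing A] [IsDomain A],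
    (Algebra.Smooth ℤ A ∨ ∃ (p : ℕ) (_ : Fact p.Prime) (_ : Algebra (ZMod p) A),
      Algebra.Smooth (ZMod p) A) →
    FibLE d (Spec.map (CommRingCat.ofHom (algebraMap ℤ A))) → P (aff ℤ A)

variable {sep : Prop} {P : Sch ℤ → Prop}

section

variable (hP : Two sep P)

include hP

lemma closed_of_sections {N : ℕ} (h : Sections P N) (I : Ideal (MvPolynomial (Fin N) ℤ)) :
    P (aff ℤ (MvPolynomial (Fin N) ℤ ⧸ I)) := by
  refine t_closed_of_open hP (fun f => ?_) I
  obtain ⟨s, M, h1, h2⟩ := exists_det f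
  have h3 := h s M h1
  rwa [h2] at h3

lemma sections_of_closed {N : ℕ}
    (h : ∀ I : Ideal (MvPolynomial (Fin N) ℤ), P (aff ℤ (MvPolynomial (Fin N) ℤ ⧸ I))) :
    Sections P N := fun _ _ _ => t_open_of_closed hP h _

/-- From smooth domains to all schemes. -/
lemma all_of_smoothDom {d : ℕ} (h : SmoothDom P d) (X : Sch ℤ) (hX : FT sep X)
    (hn : FibLE d (X := X.left) X.hom) : P X := by
  refine t_fib_of_affine_sep hP (fun A _ inst _ hA => ?_) X hX hn
  obtain rfl : inst = Ring.toIntAlgebra A := Subsingleton.elim _ _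
  refine t_noeth hP (fun B _ _ hB => t_p_empty hP B hB) fun p hp => ?_
  have hBft : @Algebra.FiniteType ℤ (A ⧸ p) _ _ (Ring.toIntAlgebra (A ⧸ p)) :=
    Algebra.FiniteType.of_surjective (Ideal.Quotient.mk p).toIntAlgHom Ideal.Quotient.mk_surjective
  have h2 : FibLE d (Spec.map (CommRingCat.ofHom (@algebraMap ℤ (A ⧸ p) _ _
      (Ring.toIntAlgebra (A ⧸ p))))) := by
    rw [fib_affine] at hA ⊢
    exact fun K _ => (dim_surj (Ideal.Quotient.mk p) Ideal.Quotient.mk_surjective K).trans (hA K)
  have hdom : ∀ w : A ⧸ p, w ≠ 0 → IsDomain (Localization.Away w) := fun w hw =>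
    IsLocalization.isDomain_localization (powers_le_nonZeroDivisors_of_noZeroDivisors hw)
  obtain ⟨q, hq⟩ := CharP.exists (A ⧸ p)
  rcases CharP.char_is_prime_or_zero (A ⧸ p) q with h0 | rfl
  · have : Fact q.Prime := ⟨h0⟩
    let _ : Algebra (ZMod q) (A ⧸ p) := ZMod.algebra _ q
    have h1 : Algebra.FiniteType (ZMod q) (A ⧸ p) := by
      have : IsScalarTower ℤ (ZMod q) (A ⧸ p) :=
        IsScalarTower.of_algebraMap_eq' (RingHom.ext_int _ _)
      exact Algebra.FiniteType.of_restrictScalars_finiteType ℤ (ZMod q) (A ⧸ p)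
    obtain ⟨w, hw, hs⟩ := exists_smooth (k := ZMod q) (A ⧸ p)
    have := hdom w hw
    exact ⟨w, hw, p_inst _ _ (h _ (Or.inr ⟨q, ‹_›, inferInstance, hs⟩) (fib_away w h2 _))⟩
  · have : CharZero (A ⧸ p) := CharP.charP_to_charZero _
    obtain ⟨w, hw, hs⟩ := exists_smooth_int (A ⧸ p)
    have := hdom w hw
    refine ⟨w, hw, p_inst _ _ (h _ (Or.inl ?_) (fib_away w h2 _))⟩
    convert hs
    exact Subsingleton.elim _ _

end

lemma smoothDom_of_all {d : ℕ}
    (h : ∀ X : Sch ℤ, FT sep X → FibLE d (X := X.left) X.hom → P X) : SmoothDom P d := by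
  intro A _ _ hA hn
  have h1 : Algebra.FiniteType ℤ A := by
    rcases hA with hA | ⟨p, hp, inst, hA⟩
    · exact Algebra.FiniteType.of_finitePresentation
    · have h1 : Algebra.FiniteType (ZMod p) A := Algebra.FiniteType.of_finitePresentation
      have h2 : Algebra.FiniteType ℤ (ZMod p) := Algebra.FiniteType.of_surjective
        (Int.castRingHom (ZMod p)).toIntAlgHom (ZMod.ringHom_surjective _)
      exact Algebra.FiniteType.trans h2 h1
  exact h (aff ℤ A) (ft_aff sep) hn

/-- **Schemes with fibres of dimension at most `d` and linear sections of `GL_s` of dimension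
`d + 1`.** -/
theorem sections_main (hP : TwoZ sep P) (d : ℕ) : List.TFAE
    [∀ X : Sch ℤ, FT sep X → FibLE d (X := X.left) X.hom → P X, SmoothDom P d,
      Sections P (d + 1)] := by
  tfae_have 1 → 2 := smoothDom_of_all
  tfae_have 2 → 1 := fun h => all_of_smoothDom hP.toTwo h
  tfae_have 1 → 3 := fun h => sections_of_closed hP.toTwo (t_fib_to_closed_sep hP h)
  tfae_have 3 → 1 := fun h => t_fib_of_affine_sep hP.toTwo fun A _ _ _ hA =>
    t_closed_to_fib_sep hP.toTwo (closed_of_sections hP.toTwo h) A hA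
  tfae_finish

/-- Flat integral schemes. -/
theorem sections_flat (hP : TwoZ sep P) {d : ℕ} (h : Sections P (d + 1)) (X : Sch ℤ)
    (hX : FT sep X) [IsIntegral X.left] [Flat X.hom]
    (hd : topologicalKrullDim X.left ≤ (d + 1 : ℕ)) : P X :=
  t_fibDim_all hP (closed_of_sections hP.toTwo h) X hX (flat_fibDim X hX.locallyOfFiniteType hd)

/-- All schemes. -/
theorem sections_all (hP : Two sep P) (h : ∀ N, Sections P N) (X : Sch ℤ) (hX : FT sep X) :
    P X := by
  refine of_affine' (fun hX e h => hP.iso hX e h) (fun i j hX ht h1 h2 => hP.total i j hX ht h1 h2)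
    (fun A _ _ _ => ?_) X hX
  obtain ⟨N, φ, hφ⟩ := Algebra.FiniteType.iff_quotient_mvPolynomial''.mp
    (inferInstance : Algebra.FiniteType ℤ A)
  exact t_of_surj hP (closed_of_sections hP (h N)) φ hφ

end Pool.Agent.Q27.TW
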