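import Pool.Agent.Z125.UN.Dim
import Pool.Agent.Q27.BG.Res

/-!
# Properties closed under closed-open decompositions

Properties of schemes of finite type over `R` with the property two of three for a closed subscheme
and its open complement, true for the affine spaces. Nothing is assumed about affine bundles.
-/

set_option autoImplicit false

namespace Pool.Agent.Q27.TW

open CategoryTheory AlgebraicGeometry MvPolynomial Pool.Agent.Y116.UV
open Pool.Agent.Z125.UN (exists_gens exists_emb)

/-- The property `P` of the (separated, if `sep` is true) schemes of finite type over `R` is invariant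
under isomorphisms, it is true for two of `Z`, `X`, `U` only if it is true for the third, for `Z` closed
in `X` with the complement `U`, and it is true for the affine spaces over `R`. -/
structure Two {R : Type} [CommRing R] (sep : Prop) (P : Sch R → Prop) : Prop where
  iso : ∀ {X Y : Sch R}, FT sep X → Nonempty (X ≅ Y) → P X → P Y
  total : ∀ {Z X U : Sch R} (i : Z ⟶ X) (j : U ⟶ X), FT sep X → IsTriple i j → P Z → P U → P X
  opened : ∀ {Z X U : Sch R} (i : Z ⟶ X) (j : U ⟶ X), FT sep X → IsTriple i j → P Z → P X → P U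
  closed : ∀ {Z X U : Sch R} (i : Z ⟶ X) (j : U ⟶ X), FT sep X → IsTriple i j → P X → P U → P Z
  space : ∀ n : ℕ, P (aff R (MvPolynomial (Fin n) R))

section

variable {R : Type} [CommRing R] {sep : Prop} {P : Sch R → Prop}

lemma t_iso_alg (hP : Two sep P) {A B : Type} [CommRing A] [CommRing B] [Algebra R A] [Algebra R B]
    [Algebra.FiniteType R A] (e : A ≃ₐ[R] B) (h : P (aff R A)) : P (aff R B) :=
  hP.iso (ft_aff sep) ⟨(affIso e).symm⟩ h

variable (hP : Two sep P)

include hP


section split

variable {A : Type} [CommRing A] [Algebra R A] [Algebra.FiniteType R A]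

lemma t_ring_total (w : A) (h1 : P (aff R (A ⧸ Ideal.span {w})))
    (h2 : P (aff R (Localization.Away w))) : P (aff R A) :=
  hP.total _ _ (ft_aff sep) (triple_away w) h1 h2

lemma t_ring_open (w : A) (h1 : P (aff R (A ⧸ Ideal.span {w}))) (h2 : P (aff R A)) :
    P (aff R (Localization.Away w)) :=
  hP.opened _ _ (ft_aff sep) (triple_away w) h1 h2

/-- quotients of quotients -/
lemma t_quot_ideal (I J : Ideal A) (h : P (aff R (A ⧸ (I ⊔ J)))) :
    P (aff R ((A ⧸ I) ⧸ Ideal.map (Ideal.Quotient.mkₐ R I) J)) :=
  t_iso_alg hP (DoubleQuot.quotQuotEquivQuotSupₐ R I J).symm h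

/-- quotients of quotients -/
lemma t_quot_mk (I : Ideal A) (a : A) (h : P (aff R (A ⧸ (I ⊔ Ideal.span {a})))) :
    P (aff R ((A ⧸ I) ⧸ Ideal.span {Ideal.Quotient.mk I a})) := by
  have h2 : Ideal.map (Ideal.Quotient.mkₐ R I) (Ideal.span {a}) =
      Ideal.span {Ideal.Quotient.mk I a} := by
    rw [Ideal.map_span, Set.image_singleton]
    rfl
  rw [← h2]
  exact t_quot_ideal hP I _ h

end split

section

variable {A : Type} [CommRing A] [Algebra R A] [Algebra.FiniteType R A]

/-- If `a b = 0` then `A_a` is the localisation of `A / b`. -/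
lemma t_zero_div {a b : A} (hab : a * b = 0) (h1 : P (aff R (A ⧸ Ideal.span {b})))
    (h2 : P (aff R ((A ⧸ Ideal.span {b}) ⧸ Ideal.span {Ideal.Quotient.mk (Ideal.span {b}) a}))) :
    P (aff R (Localization.Away a)) := by
  have h3 := t_ring_open hP (Ideal.Quotient.mk (Ideal.span {b}) a) h2 h1
  -- the two localisations are isomorphic
  let B := A ⧸ Ideal.span {b}
  let S := Localization.Away (Ideal.Quotient.mk (Ideal.span {b}) a)
  let f : A →+* S := (algebraMap B S).comp (Ideal.Quotient.mk (Ideal.span {b}))
  let _ : Algebra A S := f.toAlgebra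
  have hloc : IsLocalization.Away a S := by
    have hu : IsUnit (algebraMap A S a) := IsLocalization.Away.algebraMap_isUnit
      (S := S) (Ideal.Quotient.mk (Ideal.span {b}) a)
    refine ⟨?_, ?_, ?_⟩
    · rintro ⟨_, n, rfl⟩
      change IsUnit (algebraMap A S (a ^ n))
      rw [map_pow]
      exact hu.pow n
    · intro z
      obtain ⟨⟨y, ⟨_, n, rfl⟩⟩, hy⟩ := IsLocalization.surj
        (Submonoid.powers (Ideal.Quotient.mk (Ideal.span {b}) a)) z
      obtain ⟨y, rfl⟩ := Ideal.Quotient.mk_surjective y
      refine ⟨(y, ⟨a ^ n, n, rfl⟩), ?_⟩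
      change z * algebraMap A S (a ^ n) = _
      have h4 : algebraMap A S (a ^ n) =
          algebraMap B S ((Ideal.Quotient.mk (Ideal.span {b}) a) ^ n) := by
        rw [← map_pow]
        rfl
      rw [h4]
      exact hy
    · intro x y hxy
      have h5 : algebraMap B S (Ideal.Quotient.mk _ x) = algebraMap B S (Ideal.Quotient.mk _ y) :=
        hxy
      obtain ⟨⟨_, n, rfl⟩, hc⟩ := (IsLocalization.eq_iff_exists
        (Submonoid.powers (Ideal.Quotient.mk (Ideal.span {b}) a)) S).mp h5
      have h6 : Ideal.Quotient.mk (Ideal.span {b}) (a ^ n * x - a ^ n * y) = 0 := by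
        rw [map_sub, map_mul, map_mul, map_pow]
        exact sub_eq_zero.mpr hc
      rw [Ideal.Quotient.eq_zero_iff_mem, Ideal.mem_span_singleton] at h6
      obtain ⟨c, hc⟩ := h6
      refine ⟨⟨a ^ (n + 1), n + 1, rfl⟩, ?_⟩
      change a ^ (n + 1) * x = a ^ (n + 1) * y
      have h7 : a ^ (n + 1) * x - a ^ (n + 1) * y = (a * b) * c := by
        linear_combination a * hc
      rw [hab, zero_mul, sub_eq_zero] at h7
      exact h7
  let e : Localization.Away a ≃ₐ[A] S :=
    IsLocalization.algEquiv (Submonoid.powers a) (Localization.Away a) S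
  let e2 : S ≃ₐ[R] Localization.Away a := AlgEquiv.ofRingEquiv (f := e.symm.toRingEquiv) (by
    intro r
    have h8 : algebraMap R S r = algebraMap A S (algebraMap R A r) := rfl
    change e.symm (algebraMap R S r) = _
    rw [h8, e.symm.commutes, ← IsScalarTower.algebraMap_apply])
  have : Algebra.FiniteType R S :=
    Algebra.FiniteType.trans (S := A ⧸ Ideal.span {b}) inferInstance inferInstance
  exact t_iso_alg hP e2 h3

end

/-- Noetherian induction: it is enough to find, for each domain of finite type, a non-empty open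
subscheme for which the property is true. -/
theorem t_noeth [IsNoetherianRing R] {A : Type} [CommRing A] [Algebra R A] [Algebra.FiniteType R A]
    (h0 : ∀ (B : Type) [CommRing B] [Algebra R B], Subsingleton B → P (aff R B))
    (hD : ∀ p : Ideal A, p.IsPrime → ∃ w : A ⧸ p, w ≠ 0 ∧ P (aff R (Localization.Away w))) :
    P (aff R A) := by
  have hN : IsNoetherianRing A := Algebra.FiniteType.isNoetherianRing R A
  have key : ∀ I : Ideal A, P (aff R (A ⧸ I)) := by
    intro I
    induction I using IsNoetherian.induction with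
    | hgt I ih =>
    by_cases hI : I = ⊤
    · subst hI
      exact h0 _ (Ideal.Quotient.subsingleton_iff.mpr rfl)
    by_cases hp : Ideal.IsPrime I
    · obtain ⟨w, hw, hPw⟩ := hD I hp
      obtain ⟨w, rfl⟩ := Ideal.Quotient.mk_surjective w
      refine t_ring_total hP _ (t_quot_mk hP I w (ih _ ?_)) hPw
      refine lt_of_le_of_ne le_sup_left fun h => hw ?_
      rw [Ideal.Quotient.eq_zero_iff_mem, h]
      exact Ideal.mem_sup_right (Ideal.mem_span_singleton_self w)
    · have h1 : ∃ a b, a * b ∈ I ∧ a ∉ I ∧ b ∉ I := by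
        by_contra hcon
        push Not at hcon
        exact hp ⟨hI, fun {a b} hab => by
          by_contra h
          push Not at h
          exact h.2 (hcon a b hab h.1)⟩
      obtain ⟨a, b, hab, ha, hb⟩ := h1
      have hJ : ∀ c, c ∉ I → I < I ⊔ Ideal.span {c} := fun c hc =>
        lt_of_le_of_ne le_sup_left fun h => hc (by
          rw [h]
          exact Ideal.mem_sup_right (Ideal.mem_span_singleton_self c))
      have hPa := t_quot_mk hP I a (ih _ (hJ a ha))
      have hPb := t_quot_mk hP I b (ih _ (hJ b hb))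
      refine t_ring_total hP _ hPa (t_zero_div hP (b := Ideal.Quotient.mk I b) ?_ hPb ?_)
      · rw [← map_mul, Ideal.Quotient.eq_zero_iff_mem]
        exact hab
      · have h2 := ih (I ⊔ (Ideal.span {b} ⊔ Ideal.span {a}))
          (lt_of_lt_of_le (hJ b hb) (sup_le_sup_left le_sup_left I))
        have h3 := t_quot_ideal hP I _ h2
        have h4 : Ideal.map (Ideal.Quotient.mkₐ R I) (Ideal.span {b} ⊔ Ideal.span {a}) =
            Ideal.span {Ideal.Quotient.mk I b} ⊔ Ideal.span {Ideal.Quotient.mk I a} := by
          rw [Ideal.map_sup, Ideal.map_span, Ideal.map_span, Set.image_singleton,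
            Set.image_singleton]
          rfl
        rw [h4] at h3
        exact t_quot_mk hP _ _ h3
  have h := key ⊥
  exact t_iso_alg hP (AlgEquiv.quotientBot R A) h
/-- the empty scheme -/
lemma t_p_empty (B : Type) [CommRing B] [Algebra R B] (hB : Subsingleton B) : P (aff R B) := by
  let A := MvPolynomial (Fin 0) R
  have h1 : P (aff R A) := hP.space 0
  have h2 : P (aff R (Localization.Away (1 : A))) := by
    have e := IsLocalization.atUnits A (Submonoid.powers (1 : A)) (S := Localization.Away (1 : A))
      (by rintro _ ⟨n, rfl⟩; simp)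
    exact t_iso_alg hP (e.restrictScalars R) h1
  have h3 : P (aff R (A ⧸ Ideal.span {(1 : A)})) :=
    hP.closed _ _ (ft_aff sep) (triple_away (1 : A)) h1 h2
  have h4 : Subsingleton (A ⧸ Ideal.span {(1 : A)}) :=
    Ideal.Quotient.subsingleton_iff.mpr Ideal.span_singleton_one
  let e : (A ⧸ Ideal.span {(1 : A)}) ≃ₐ[R] B :=
    AlgEquiv.ofRingEquiv (f := { toFun := fun _ => 0
                                 invFun := fun _ => 0
                                 left_inv := fun _ => Subsingleton.elim _ _
                                 right_inv := fun _ => Subsingleton.elim _ _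
                                 map_mul' := fun _ _ => Subsingleton.elim _ _
                                 map_add' := fun _ _ => Subsingleton.elim _ _ })
      (fun _ => Subsingleton.elim _ _)
  exact t_iso_alg hP e h3

lemma t_of_surj {N : ℕ} (hA : ∀ I : Ideal (MvPolynomial (Fin N) R),
    P (aff R (MvPolynomial (Fin N) R ⧸ I))) {A : Type} [CommRing A] [Algebra R A]
    (φ : MvPolynomial (Fin N) R →ₐ[R] A) (hφ : Function.Surjective φ) : P (aff R A) :=
  t_iso_alg hP (Ideal.quotientKerAlgEquivOfSurjective (f := φ) hφ) (hA _)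

/-- locally closed subschemes of affine spaces -/
lemma t_p_emb {N : ℕ} (hA : ∀ I : Ideal (MvPolynomial (Fin N) R),
    P (aff R (MvPolynomial (Fin N) R ⧸ I))) {L : Type} [CommRing L] [Algebra R L]
    (φ : MvPolynomial (Fin N) R →ₐ[R] L) (g : MvPolynomial (Fin N) R) (hg : IsUnit (φ g))
    (hs : ∀ a, ∃ (m : ℕ) (p : MvPolynomial (Fin N) R), φ g ^ m * a = φ p) : P (aff R L) := by
  let Q := MvPolynomial (Fin N) R ⧸ RingHom.ker φ
  let ψ : Q →ₐ[R] L := Ideal.kerLiftAlg φ
  have hψ : Function.Injective ψ := Ideal.kerLiftAlg_injective φ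
  let gq : Q := Ideal.Quotient.mk _ g
  have h1 : P (aff R (Localization.Away gq)) := by
    refine t_ring_open hP gq ?_ (hA _)
    exact t_of_surj hP hA ((Ideal.Quotient.mkₐ R (Ideal.span {gq})).comp (Ideal.Quotient.mkₐ R _))
      ((Ideal.Quotient.mkₐ_surjective R _).comp (Ideal.Quotient.mkₐ_surjective R _))
  let _ : Algebra Q L := ψ.toRingHom.toAlgebra
  have hloc : IsLocalization.Away gq L := by
    have hgq : algebraMap Q L gq = φ g := rfl
    refine ⟨?_, ?_, ?_⟩
    · rintro ⟨_, n, rfl⟩
      change IsUnit (algebraMap Q L (gq ^ n))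
      rw [map_pow, hgq]
      exact hg.pow n
    · intro z
      obtain ⟨m, p, h⟩ := hs z
      refine ⟨(Ideal.Quotient.mk _ p, ⟨gq ^ m, m, rfl⟩), ?_⟩
      change z * algebraMap Q L (gq ^ m) = φ p
      rw [map_pow, hgq, ← h, mul_comm]
    · intro x y hxy
      refine ⟨1, ?_⟩
      rw [hψ hxy]
  let e : Localization.Away gq ≃ₐ[Q] L :=
    IsLocalization.algEquiv (Submonoid.powers gq) (Localization.Away gq) L
  let e2 : Localization.Away gq ≃ₐ[R] L := AlgEquiv.ofRingEquiv (f := e.toRingEquiv) (by
    intro r
    change e (algebraMap R (Localization.Away gq) r) = _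
    rw [IsScalarTower.algebraMap_apply R Q (Localization.Away gq), e.commutes]
    exact ψ.commutes r)
  have : Algebra.FiniteType R (Localization.Away gq) :=
    Algebra.FiniteType.trans (S := Q) inferInstance inferInstance
  exact t_iso_alg hP e2 h1

end

section field

variable {k : Type} [Field k] {sep : Prop} {P : Sch k → Prop} (hP : Two sep P)

include hP

/-- from closed subschemes of the affine space of dimension `n + 1` to affine schemes of dimension
at most `n` -/
lemma t_closed_to_dim [PerfectField k] {n : ℕ} (h : ∀ I : Ideal (MvPolynomial (Fin (n + 1)) k),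
    P (aff k (MvPolynomial (Fin (n + 1)) k ⧸ I))) (A : Type) [CommRing A] [Algebra k A]
    [Algebra.FiniteType k A] (hA : ringKrullDim A ≤ n) : P (aff k A) := by
  refine t_noeth hP (fun B _ _ hB => t_p_empty hP B hB) fun p hp => ?_
  have hd : ringKrullDim (A ⧸ p) ≤ n := (ringKrullDim_quotient_le p).trans hA
  obtain ⟨x, hx⟩ := exists_gens k (A ⧸ p) n hd
  obtain ⟨w, hw, φ, g, h1, h2⟩ := exists_emb x hx
  exact ⟨w, hw, t_p_emb hP h φ g h1 h2⟩

end field

end Pool.Agent.Q27.TW
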